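import Mathlib

set_option autoImplicit false

/-!
# A set of path properties whose closure is not an interval

For graphs of order `7` the closure of `{4, 6}` contains `4` and `6` but not `5`: an explicit graph
with `11` edges satisfies `P_4` and `P_6` but not `P_5`.
-/

namespace Pool.Agent.Results.MP_0ab4d0_co.ClosureGap

/-- `l` is a path from `u` to `v`: a sequence of distinct vertices starting at `u`, ending at `v`,
consecutive ones being adjacent. -/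
def IsPathSeq {n : ℕ} (G : SimpleGraph (Fin n)) (u v : Fin n) (l : List (Fin n)) : Prop :=
  l.Nodup ∧ l.head? = some u ∧ l.getLast? = some v ∧ l.IsChain G.Adj

/-- Property `P_i`: any two distinct vertices are joined by a path with `i` vertices. -/
def HasP {n : ℕ} (G : SimpleGraph (Fin n)) (i : ℕ) : Prop :=
  ∀ u v : Fin n, u ≠ v → ∃ l : List (Fin n), IsPathSeq G u v l ∧ l.length = i

/-- The closure of a set of indices, for graphs of order `n`. -/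
def closure (n : ℕ) (S : Set ℕ) : Set ℕ :=
  {j | 2 ≤ j ∧ j ≤ n ∧ ∀ G : SimpleGraph (Fin n), (∀ i ∈ S, HasP G i) → HasP G j}

/-- The edges of the graph. -/
def edges : List (Fin 7 × Fin 7) :=
  [(0, 4), (0, 5), (1, 3), (1, 5), (1, 6), (2, 3), (2, 4), (2, 6), (3, 6), (4, 6), (5, 6)]

/-- The graph on seven vertices. -/
def G : SimpleGraph (Fin 7) where
  Adj i j := (i, j) ∈ edges ∨ (j, i) ∈ edges
  symm := ⟨fun _ _ h => h.symm⟩
  loopless := ⟨by decide⟩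

instance : DecidableRel G.Adj := fun i j =>
  inferInstanceAs (Decidable ((i, j) ∈ edges ∨ (j, i) ∈ edges))

/-- Paths with four vertices. -/
def p4 : Fin 7 → Fin 7 → List (Fin 7) :=
  ![![[], [0, 4, 6, 1], [0, 4, 6, 2], [0, 4, 2, 3], [0, 5, 6, 4], [0, 4, 6, 5], [0, 4, 2, 6]],
    ![[1, 6, 4, 0], [], [1, 3, 6, 2], [1, 5, 6, 3], [1, 3, 2, 4], [1, 3, 6, 5], [1, 3, 2, 6]],
    ![[2, 6, 4, 0], [2, 3, 6, 1], [], [2, 4, 6, 3], [2, 3, 6, 4], [2, 3, 1, 5], [2, 3, 1, 6]],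
    ![[3, 1, 5, 0], [3, 2, 6, 1], [3, 1, 6, 2], [], [3, 1, 6, 4], [3, 1, 6, 5], [3, 1, 5, 6]],
    ![[4, 6, 5, 0], [4, 0, 5, 1], [4, 6, 3, 2], [4, 2, 6, 3], [], [4, 2, 6, 5], [4, 0, 5, 6]],
    ![[5, 6, 4, 0], [5, 6, 3, 1], [5, 0, 4, 2], [5, 1, 6, 3], [5, 1, 6, 4], [], [5, 0, 4, 6]],
    ![[6, 1, 5, 0], [6, 2, 3, 1], [6, 1, 3, 2], [6, 4, 2, 3], [6, 3, 2, 4], [6, 3, 1, 5], []]]

/-- Paths with six vertices. -/
def p6 : Fin 7 → Fin 7 → List (Fin 7) :=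
  ![![[], [0, 4, 2, 3, 6, 1], [0, 4, 6, 1, 3, 2], [0, 4, 2, 6, 1, 3], [0, 5, 1, 3, 2, 4], [0, 4, 2, 3, 1, 5], [0, 4, 2, 3, 1, 6]],
    ![[1, 3, 2, 6, 4, 0], [], [1, 5, 0, 4, 6, 2], [1, 5, 0, 4, 2, 3], [1, 3, 6, 5, 0, 4], [1, 3, 2, 4, 0, 5], [1, 5, 0, 4, 2, 6]],
    ![[2, 3, 1, 6, 4, 0], [2, 4, 0, 5, 6, 1], [], [2, 4, 0, 5, 1, 3], [2, 3, 1, 5, 0, 4], [2, 3, 6, 4, 0, 5], [2, 4, 0, 5, 1, 6]],
    ![[3, 1, 5, 6, 4, 0], [3, 2, 4, 0, 5, 1], [3, 1, 5, 0, 4, 2], [], [3, 1, 5, 6, 2, 4], [3, 1, 6, 4, 0, 5], [3, 1, 5, 0, 4, 6]],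
    ![[4, 2, 3, 1, 5, 0], [4, 0, 5, 6, 3, 1], [4, 0, 5, 1, 3, 2], [4, 0, 5, 1, 6, 3], [], [4, 2, 3, 1, 6, 5], [4, 0, 5, 1, 3, 6]],
    ![[5, 1, 3, 2, 4, 0], [5, 0, 4, 2, 3, 1], [5, 0, 4, 6, 3, 2], [5, 0, 4, 2, 6, 3], [5, 1, 3, 2, 6, 4], [], [5, 0, 4, 2, 3, 6]],
    ![[6, 1, 3, 2, 4, 0], [6, 2, 4, 0, 5, 1], [6, 1, 5, 0, 4, 2], [6, 4, 0, 5, 1, 3], [6, 3, 1, 5, 0, 4], [6, 3, 2, 4, 0, 5], []]]

theorem hasP4 : HasP G 4 := by
  have key : ∀ u v : Fin 7, u ≠ v → (p4 u v).Nodup ∧ (p4 u v).head? = some u ∧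
      (p4 u v).getLast? = some v ∧ (p4 u v).IsChain G.Adj ∧ (p4 u v).length = 4 := by
    decide
  intro u v h
  obtain ⟨h1, h2, h3, h4, h5⟩ := key u v h
  exact ⟨p4 u v, ⟨h1, h2, h3, h4⟩, h5⟩

theorem hasP6 : HasP G 6 := by
  have key : ∀ u v : Fin 7, u ≠ v → (p6 u v).Nodup ∧ (p6 u v).head? = some u ∧
      (p6 u v).getLast? = some v ∧ (p6 u v).IsChain G.Adj ∧ (p6 u v).length = 6 := by
    decide
  intro u v h
  obtain ⟨h1, h2, h3, h4, h5⟩ := key u v h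
  exact ⟨p6 u v, ⟨h1, h2, h3, h4⟩, h5⟩

theorem not_hasP5 : ¬ HasP G 5 := by
  intro h
  obtain ⟨l, ⟨h1, h2, h3, h4⟩, h5⟩ := h 3 6 (by decide)
  obtain ⟨a, b, c, d, e, rfl⟩ : ∃ a b c d e, l = [a, b, c, d, e] := by
    match l, h5 with
    | [a, b, c, d, e], _ => exact ⟨a, b, c, d, e, rfl⟩
  simp only [List.head?_cons, Option.some.injEq] at h2
  simp only [List.getLast?_cons_cons, List.getLast?_singleton, Option.some.injEq] at h3
  subst h2 h3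
  have key : ∀ b : Fin 7, G.Adj 3 b → ∀ c, G.Adj b c → ∀ d, G.Adj c d → G.Adj d 6 →
      ¬ [3, b, c, d, 6].Nodup := by decide
  simp only [List.isChain_cons_cons, List.isChain_singleton, and_true] at h4
  exact key b h4.1 c h4.2.1 d h4.2.2.1 h4.2.2.2 h1

/-- **Negative answer to Q1.**  For `n = 7` and `S = {4, 6}` the closure is not an interval. -/
theorem result : ∃ n : ℕ, 4 ≤ n ∧ ∃ S : Set ℕ, S ⊆ Set.Icc 4 n ∧
    ∃ a b c : ℕ, a < b ∧ b < c ∧ a ∈ closure n S ∧ c ∈ closure n S ∧ b ∉ closure n S := by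
  refine ⟨7, by norm_num, {4, 6}, ?_, 4, 5, 6, by norm_num, by norm_num, ?_, ?_, ?_⟩
  · intro x hx
    rcases hx with rfl | rfl <;> constructor <;> norm_num
  · exact ⟨by norm_num, by norm_num, fun G h => h 4 (by simp)⟩
  · exact ⟨by norm_num, by norm_num, fun G h => h 6 (by simp)⟩
  · intro h
    refine not_hasP5 (h.2.2 G ?_)
    rintro i (rfl | rfl)
    · exact hasP4
    · exact hasP6

end Pool.Agent.Results.MP_0ab4d0_co.ClosureGap
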